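import Mathlib

namespace Pool.Agent.H.MP_0b3b8e_pr

open Set

def e (n : ℕ) : ℕ := if (n - n.sqrt ^ 2) % 2 = 0 then (n.sqrt + 1) ^ 2 else n ^ 2

lemma e_even {j i : ℕ} (hi : i ≤ j) : e (j ^ 2 + 2 * i) = (j + 1) ^ 2 := by
  unfold e
  rw [Nat.sqrt_add_eq' j (by omega), if_pos (by omega)]

lemma e_odd {j i : ℕ} (hi : i < j) : e (j ^ 2 + 2 * i + 1) = (j ^ 2 + 2 * i + 1) ^ 2 := by
  unfold e
  rw [add_assoc, Nat.sqrt_add_eq' j (by omega), if_neg (by omega)]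

lemma e_top (j : ℕ) : e (j ^ 2 + 2 * j + 1) = (j + 2) ^ 2 := by
  have := e_even (j := j + 1) (i := 0) (by omega)
  rwa [show (j + 1) ^ 2 + 2 * 0 = j ^ 2 + 2 * j + 1 by ring] at this

lemma le_e (n : ℕ) : n ≤ e n := by
  unfold e
  split_ifs
  · exact (Nat.lt_succ_sqrt' n).le
  · nlinarith

noncomputable def W (n : ℕ) : ℝ := 2 ^ e n

lemma W_pos (n : ℕ) : 0 < W n := by unfold W; positivity

lemma W_sum : Summable fun n => 1 / W n := by
  refine Summable.of_nonneg_of_le (fun n => (one_div_pos.2 (W_pos n)).le) (fun n => ?_)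
    summable_geometric_two
  rw [one_div_pow]
  exact one_div_le_one_div_of_le (by positivity) (pow_le_pow_right₀ (by norm_num) (le_e n))

noncomputable def P (B R : ℕ) : ℝ := W B / (W B + W R)

lemma P0 (B R : ℕ) : 0 ≤ P B R := (div_pos (W_pos B) (add_pos (W_pos B) (W_pos R))).le

lemma P1 (B R : ℕ) : P B R ≤ 1 :=
  (div_le_one (add_pos (W_pos B) (W_pos R))).2 (by linarith [W_pos R])

lemma Phalf {B R : ℕ} (h : e B = e R) : P B R = 1 / 2 := by
  unfold P W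
  rw [h]
  field_simp
  ring

lemma Psmall {B R t : ℕ} (h : e B + t ≤ e R) : P B R ≤ (1 / 2) ^ t := by
  unfold P
  rw [div_le_iff₀ (add_pos (W_pos B) (W_pos R)), one_div_pow, div_mul_eq_mul_div, one_mul,
    le_div_iff₀ (by positivity)]
  have : W B * 2 ^ t ≤ W R := by
    unfold W
    rw [← pow_add]
    exact pow_le_pow_right₀ (by norm_num) h
  linarith [W_pos B]

lemma Pbig {B R t : ℕ} (h : e R + t ≤ e B) : 1 - P B R ≤ (1 / 2) ^ t := by
  have : 1 - P B R = P R B := by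
    unfold P
    have := W_pos B
    have := W_pos R
    field_simp
    ring
  rw [this]
  exact Psmall h

def Cert (B R : ℕ) (v : ℝ) : Prop :=
  ∃ j i k : ℕ, 3 ≤ j ∧ i ≤ j ∧ k ≤ j ∧
    ((B = j ^ 2 + 2 * i ∧ R = j ^ 2 + 2 * k ∧
      v = (2 / 3) ^ (j + 1) * (4 + (3 / 2) ^ i + (3 / 2) ^ k)) ∨
    (B = j ^ 2 + 2 * i + 1 ∧ R = j ^ 2 + 2 * k + 1 ∧ (i < j ∨ k < j) ∧
      v = (2 / 3) ^ (j + 1) * (4 + if i = k then (3 / 2) ^ (i + 1) else 0)))

noncomputable def h (B R : ℕ) : ℝ :=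
  sInf (insert 1 {w | ∃ v, Cert B R v ∧ w = v + 4 * (1 / 2) ^ (B + R)})

lemma le_h {B R : ℕ} {c : ℝ} (h1 : c ≤ 1)
    (h2 : ∀ v, Cert B R v → c ≤ v + 4 * (1 / 2) ^ (B + R)) : c ≤ h B R := by
  refine le_csInf (insert_nonempty _ _) ?_
  rintro w (rfl | ⟨v, hv, rfl⟩)
  exacts [h1, h2 v hv]

lemma cert_nn {B R : ℕ} {v : ℝ} (hv : Cert B R v) : 0 ≤ v + 4 * (1 / 2) ^ (B + R) := by
  obtain ⟨j, i, k, -, -, -, ⟨-, -, rfl⟩ | ⟨-, -, -, rfl⟩⟩ := hv
  · positivity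
  · split_ifs <;> positivity

lemma h_nn (B R : ℕ) : 0 ≤ h B R := le_h zero_le_one fun _ => cert_nn

lemma bdd (B R : ℕ) :
    BddBelow (insert 1 {w : ℝ | ∃ v, Cert B R v ∧ w = v + 4 * (1 / 2) ^ (B + R)}) := by
  refine ⟨0, ?_⟩
  rintro w (rfl | ⟨v, hv, rfl⟩)
  exacts [zero_le_one, cert_nn hv]

lemma h_one (B R : ℕ) : h B R ≤ 1 := csInf_le (bdd B R) (mem_insert _ _)

lemma h_cert {B R : ℕ} {v : ℝ} (hv : Cert B R v) : h B R ≤ v + 4 * (1 / 2) ^ (B + R) :=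
  csInf_le (bdd B R) (mem_insert_of_mem _ ⟨v, hv, rfl⟩)

lemma h_far {B R : ℕ} (hf : 3 * R + 1 < B ∨ 3 * B + 1 < R) : 1 ≤ h B R := by
  refine le_h le_rfl ?_
  rintro v ⟨j, i, k, -, hi, hk, H⟩
  have : j ≤ j ^ 2 := by nlinarith
  exfalso
  rcases H with ⟨rfl, rfl, -⟩ | ⟨rfl, rfl, -⟩ <;> omega

lemma hN {j i k B R : ℕ} (hj : 3 ≤ j) (hi : i ≤ j + 1) (hk : k ≤ j + 1) (hB : B = j ^ 2 + 2 * i)
    (hR : R = j ^ 2 + 2 * k) :
    h B R ≤ (2 / 3) ^ (j + 1) * (4 + (3 / 2) ^ i + (3 / 2) ^ k) + 4 * (1 / 2) ^ (B + R) := by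
  have e1 : ((2 : ℝ) / 3) ^ (j + 1) * (3 / 2) ^ (j + 1) = 1 := by rw [← mul_pow]; norm_num
  have e2 : ∀ m : ℕ, (0 : ℝ) ≤ (2 / 3) ^ (j + 1) * (4 + (3 / 2) ^ m) + 4 * (1 / 2) ^ (B + R) :=
    fun m => by positivity
  by_cases c1 : i = j + 1
  · subst c1
    linarith [h_one B R, e2 k]
  by_cases c2 : k = j + 1
  · subst c2
    linarith [h_one B R, e2 i]
  exact h_cert ⟨j, i, k, hj, by omega, by omega, Or.inl ⟨hB, hR, rfl⟩⟩

lemma hV {j i k B R : ℕ} (hj : 3 ≤ j) (hi : i ≤ j) (hk : k ≤ j) (hB : B = j ^ 2 + 2 * i + 1)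
    (hR : R = j ^ 2 + 2 * k + 1) (hne : i ≠ k ∨ i = j) :
    h B R ≤ (2 / 3) ^ (j + 1) * 4 + 4 * (1 / 2) ^ (B + R) := by
  by_cases c : i = k
  · have hij : i = j := by tauto
    subst c hij
    have := hN (j := i + 1) (i := 0) (k := 0) (B := B) (R := R) (by omega) (by omega) (by omega)
      (by rw [hB]; ring) (by rw [hR]; ring)
    rw [pow_succ _ (i + 1)] at this
    linarith
  · have := h_cert ⟨j, i, k, hj, hi, hk, Or.inr ⟨hB, hR, by omega, rfl⟩⟩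
    rwa [if_neg c, add_zero] at this

lemma hV' {j i k B R : ℕ} (hj : 3 ≤ j) (hi : i ≤ j) (hk : k ≤ j) (hB : B = j ^ 2 + 2 * i + 1)
    (hR : R = j ^ 2 + 2 * k + 1) :
    h B R ≤ (2 / 3) ^ (j + 1) * (4 + ((3 / 2) ^ (i + 1) + (3 / 2) ^ (k + 1)) / 2) +
      4 * (1 / 2) ^ (B + R) := by
  by_cases c : i ≠ k ∨ i = j
  · have := hV hj hi hk hB hR c
    have e2 : (0 : ℝ) ≤ (2 / 3) ^ (j + 1) * (((3 / 2) ^ (i + 1) + (3 / 2) ^ (k + 1)) / 2) := by
      positivity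
    linarith
  · have hik : i = k := by tauto
    subst hik
    have := h_cert ⟨j, i, i, hj, hi, hk, Or.inr ⟨hB, hR, by omega, rfl⟩⟩
    rw [if_pos rfl] at this
    linarith

lemma fav {p x y z v ρ : ℝ} (h0 : 0 ≤ p) (h1 : p ≤ 1) (hp : 1 - p ≤ ρ) (hx : x ≤ v) (hv : 0 ≤ v)
    (hy : y ≤ 1) (hz : z ≤ 1) :
    p * (p * x + (1 - p) * y) + (1 - p) * (p * y + (1 - p) * z) ≤ v + 2 * ρ := by
  have q : 0 ≤ 1 - p := by linarith
  have a1 : p * p * x ≤ p * p * v := mul_le_mul_of_nonneg_left hx (by positivity)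
  have a2 : p * (1 - p) * y ≤ p * (1 - p) * 1 := mul_le_mul_of_nonneg_left hy (by positivity)
  have a3 : (1 - p) * (1 - p) * z ≤ (1 - p) * (1 - p) * 1 :=
    mul_le_mul_of_nonneg_left hz (by positivity)
  have a4 : p * p * v ≤ 1 * v := mul_le_mul_of_nonneg_right (by nlinarith) hv
  nlinarith

lemma super (B R : ℕ) :
    P B R * (P B R * h (B + 2) R + (1 - P B R) * h (B + 1) (R + 1)) +
      (1 - P B R) * (P B R * h (B + 1) (R + 1) + (1 - P B R) * h B (R + 2)) ≤ h B R := by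
  have p0 := P0 B R
  have p1 := P1 B R
  have d1 : ((1 : ℝ) / 2) ^ (B + 2 + R) = (1 / 2) ^ (B + R) / 4 := by ring
  have d2 : ((1 : ℝ) / 2) ^ (B + 1 + (R + 1)) = (1 / 2) ^ (B + R) / 4 := by ring
  have d3 : ((1 : ℝ) / 2) ^ (B + (R + 2)) = (1 / 2) ^ (B + R) / 4 := by ring
  have d0 : (0 : ℝ) < (1 / 2) ^ (B + R) := by positivity
  refine le_h ?_ ?_
  · have q : 0 ≤ 1 - P B R := by linarith
    have a1 := mul_le_mul_of_nonneg_left (h_one (B + 2) R) (mul_nonneg p0 p0)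
    have a2 := mul_le_mul_of_nonneg_left (h_one (B + 1) (R + 1)) (mul_nonneg p0 q)
    have a3 := mul_le_mul_of_nonneg_left (h_one B (R + 2)) (mul_nonneg q q)
    nlinarith
  rintro v ⟨j, i, k, hj, hi, hk, ⟨hB, hR, rfl⟩ | ⟨hB, hR, hlt, rfl⟩⟩
  · rw [Phalf (by rw [hB, hR, e_even hi, e_even hk])]
    have a1 := hN (i := i + 1) (k := k) (B := B + 2) (R := R) hj (by omega) (by omega)
      (by omega) hR
    have a2 := hV' (B := B + 1) (R := R + 1) hj hi hk (by omega) (by omega)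
    have a3 := hN (i := i) (k := k + 1) (B := B) (R := R + 2) hj (by omega) (by omega) hB
      (by omega)
    rw [d1] at a1
    rw [d2] at a2
    rw [d3] at a3
    rw [pow_succ _ i] at a1 a2
    rw [pow_succ _ k] at a2 a3
    linarith
  have c0 : (0 : ℝ) ≤ (2 / 3) ^ (j + 1) * 4 + 4 * ((1 / 2) ^ (B + R) / 4) := by positivity
  have fB : i + 1 ≤ j → (i + 1 ≠ k ∨ i + 1 = j) → e R + (B + R) ≤ e B → i ≠ k →
      P B R * (P B R * h (B + 2) R + (1 - P B R) * h (B + 1) (R + 1)) +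
      (1 - P B R) * (P B R * h (B + 1) (R + 1) + (1 - P B R) * h B (R + 2)) ≤
      (2 / 3) ^ (j + 1) * (4 + if i = k then (3 / 2) ^ (i + 1) else 0) +
        4 * (1 / 2) ^ (B + R) := by
    intro b1 b2 b3 b4
    have a1 := hV (B := B + 2) (R := R) hj b1 hk (by omega) hR b2
    rw [d1] at a1
    have := fav p0 p1 (Pbig b3) a1 c0 (h_one (B + 1) (R + 1)) (h_one B (R + 2))
    rw [if_neg b4]
    linarith
  have fR : k + 1 ≤ j → (i ≠ k + 1 ∨ i = j) → e B + (B + R) ≤ e R → i ≠ k →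
      P B R * (P B R * h (B + 2) R + (1 - P B R) * h (B + 1) (R + 1)) +
      (1 - P B R) * (P B R * h (B + 1) (R + 1) + (1 - P B R) * h B (R + 2)) ≤
      (2 / 3) ^ (j + 1) * (4 + if i = k then (3 / 2) ^ (i + 1) else 0) +
        4 * (1 / 2) ^ (B + R) := by
    intro b1 b2 b3 b4
    have a1 := hV (B := B) (R := R + 2) hj hi b1 hB (by omega) b2
    rw [d3] at a1
    have := fav (p := 1 - P B R) (ρ := (1 / 2) ^ (B + R)) (by linarith) (by linarith)
      (by rw [sub_sub_cancel]; exact Psmall b3) a1 c0 (h_one (B + 1) (R + 1)) (h_one (B + 2) R)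
    rw [if_neg b4]
    linarith
  have g1 : ∀ x y : ℕ, x + 2 ≤ y → x ^ 2 + (x + y) ≤ y ^ 2 := fun x y hxy => by nlinarith
  have g2 : ∀ x : ℕ, j ^ 2 + 1 ≤ x → (j + 2) ^ 2 + (x + (j ^ 2 + 2 * j + 1)) ≤ x ^ 2 := by
    intro x hx
    have b1 : 9 ≤ j ^ 2 := by nlinarith
    have b2 : 3 * j ≤ j ^ 2 := by nlinarith
    have b3 : x * 10 ≤ x * x := Nat.mul_le_mul_left x (by omega)
    nlinarith
  rcases lt_trichotomy i k with c | c | c
  · by_cases c' : k = j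
    · refine fB (by omega) (by omega) ?_ c.ne
      rw [hB, hR, c', e_top, e_odd (by omega)]
      exact g2 _ (by omega)
    · refine fR (by omega) (by omega) ?_ c.ne
      rw [hB, hR, e_odd (by omega), e_odd (by omega)]
      exact g1 _ _ (by omega)
  · subst c
    rw [Phalf (by rw [hB, hR]), if_pos rfl]
    have a1 := hV (i := i + 1) (k := i) (B := B + 2) (R := R) hj (by omega) hi (by omega) hR
      (by omega)
    have a2 := hN (i := i + 1) (k := i + 1) (B := B + 1) (R := R + 1) hj (by omega) (by omega)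
      (by omega) (by omega)
    have a3 := hV (i := i) (k := i + 1) (B := B) (R := R + 2) hj hi (by omega) hB (by omega)
      (by omega)
    rw [d1] at a1
    rw [d2] at a2
    rw [d3] at a3
    linarith
  · by_cases c' : i = j
    · refine fR (by omega) (by omega) ?_ c.ne'
      rw [hB, hR, c', e_top, e_odd (by omega), add_comm (j ^ 2 + 2 * j + 1)]
      exact g2 _ (by omega)
    · refine fB (by omega) (by omega) ?_ c.ne'
      rw [hB, hR, e_odd (by omega), e_odd (by omega), add_comm (j ^ 2 + 2 * i + 1)]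
      exact g1 _ _ (by omega)

lemma start : h 16 16 < 1 := by
  have := hN (j := 4) (i := 0) (k := 0) (B := 16) (R := 16) (by norm_num) (by norm_num)
    (by norm_num) (by norm_num) (by norm_num)
  norm_num at this
  linarith

end Pool.Agent.H.MP_0b3b8e_pr
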